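import Pool.Agent.Lib.MP_dacbbd_gt.Hedge

set_option autoImplicit false

namespace Pool.Agent.Results.MP_dacbbd_gt.DenseComplete

universe u

/-- A compact Hausdorff space with an operator `O` that gives every countable set `A` a countable
external network of its closure and commutes with increasing unions of sequences of countable sets
has a dense `Gδ` subset that is completely metrizable. -/
theorem result (X : Type u) [TopologicalSpace X] [CompactSpace X] [T2Space X]
    (O : Set X → Set (Set X))
    (hcount : ∀ A : Set X, A.Countable → (O A).Countable)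
    (hnet : ∀ A : Set X, A.Countable → ∀ y ∈ closure A, ∀ U : Set X, IsOpen U → y ∈ U →
      ∃ N ∈ O A, y ∈ N ∧ N ⊆ U)
    (hchain : ∀ A : ℕ → Set X, (∀ n, (A n).Countable) → Monotone A →
      O (⋃ n, A n) = ⋃ n, O (A n)) :
    ∃ D : Set X, Dense D ∧ IsGδ D ∧ TopologicalSpace.IsCompletelyMetrizableSpace D := by
  refine Pool.Agent.Lib.MP_dacbbd_gt.dense_complete (fun F : Finset X => O (F : Set X))
    (fun F => hcount _ F.countable_toSet) fun F hF x hx U hU hxU => ?_
  obtain ⟨N, hN, h1, h2⟩ := hnet _ (Set.countable_iUnion fun n => (F n).countable_toSet) x hx U hU hxU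
  rw [hchain _ (fun n => (F n).countable_toSet) fun _ _ h => Finset.coe_subset.2 (hF h)] at hN
  obtain ⟨n, hn⟩ := Set.mem_iUnion.1 hN
  exact ⟨n, N, hn, h1, h2⟩

end Pool.Agent.Results.MP_dacbbd_gt.DenseComplete
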